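import Pool.Agent.R859.KC.FIN

/-!
# `k`-convex open sets need not be Lefschetz-`k`-convex

For all `k ≥ 2` and `m ≥ k + 2` there is a `k`-convex open subset of Euclidean `m`-space which is
not Lefschetz-`k`-convex.
-/

set_option autoImplicit false

namespace Pool.Agent.Results.MP_e72e80_gt.NotLefschetzConvex

open Pool.Agent.R859.KC

/-- For all `k ≥ 2` and `m ≥ k + 2` there are a `k`-convex open set `Ω ⊆ E^m` and a `k`-dimensional
affine subspace `A` such that `H_{k-1}(Ω ∩ A) → H_{k-1}(Ω)` is not injective. -/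
theorem result (k m : ℕ) (hk : 2 ≤ k) (hm : k + 2 ≤ m) :
    ∃ Ω : Set (EuclideanSpace ℝ (Fin m)), IsOpen Ω ∧ KConvex k Ω ∧ ¬ LefschetzKConvex k Ω :=
  kc_final hk hm

end Pool.Agent.Results.MP_e72e80_gt.NotLefschetzConvex
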